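import Mathlib

set_option autoImplicit false

open MeasureTheory unitInterval

namespace Pool.Agent.Q258.Dde

/-- graphons: symmetric measurable functions [0,1]² → [0,1] -/
structure Graphon where
  toFun : I → I → ℝ
  measurable' : Measurable (fun p : I × I => toFun p.1 p.2)
  symm' : ∀ x y, toFun x y = toFun y x
  mem' : ∀ x y, toFun x y ∈ Set.Icc (0 : ℝ) 1

open Classical in
/-- homomorphism density t(G, W) -/
noncomputable def homDensity {V : Type} [Fintype V] (G : SimpleGraph V) (W : Graphon) : ℝ :=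
  ∫ x : V → I, ∏ e ∈ G.edgeFinset,
    Sym2.lift ⟨fun a b => W.toFun (x a) (x b), fun a b => W.symm' (x a) (x b)⟩ e

/-- ρ is the (finite) density domination exponent of (G, H): the supremum of the ratios
log t(H,W) / log t(G,W) over the graphons W with t(G,W) ≠ 0, 1 (for these t(H,W) ≠ 0, so that all
ratios are real numbers) -/
def IsDominationExponent {V₁ V₂ : Type} [Fintype V₁] [Fintype V₂] (G : SimpleGraph V₁)
    (H : SimpleGraph V₂) (ρ : ℝ) : Prop :=
  (∀ W : Graphon, homDensity G W ≠ 0 → homDensity H W ≠ 0) ∧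
    IsLUB {r : ℝ | ∃ W : Graphon, homDensity G W ≠ 0 ∧ homDensity G W ≠ 1 ∧
      r = Real.log (homDensity H W) / Real.log (homDensity G W)} ρ

/-- star with a leaves, centre 0 -/
def starG (a : ℕ) : SimpleGraph (Fin (a + 1)) :=
  SimpleGraph.fromEdgeSet (Set.range (fun j : Fin a => s(0, j.succ)))

/-- star with a leaves and centre inl 0, and the path inl 0, inr 0, inr 1 -/
def spid (a : ℕ) : SimpleGraph (Fin (a + 1) ⊕ Fin 2) :=
  SimpleGraph.fromEdgeSet (Set.range (fun j : Fin a => s(Sum.inl 0, Sum.inl j.succ)) ∪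
    {s(Sum.inr 0, Sum.inr 1), s(Sum.inl 0, Sum.inr 0)})

namespace Graphon

variable (W : Graphon)

lemma nonneg (x y : I) : 0 ≤ W.toFun x y := (W.mem' x y).1

lemma le_one (x y : I) : W.toFun x y ≤ 1 := (W.mem' x y).2

/-- degree -/
noncomputable def d (x : I) : ℝ := ∫ y, W.toFun x y

lemma meas_left (x : I) : Measurable (fun y => W.toFun x y) :=
  W.measurable'.comp (measurable_const.prodMk measurable_id)

lemma integrable_left (x : I) : Integrable (fun y => W.toFun x y) :=
  Integrable.of_bound (W.meas_left x).aestronglyMeasurable 1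
    (Filter.Eventually.of_forall fun y => by
      rw [Real.norm_of_nonneg (W.nonneg x y)]; exact W.le_one x y)

lemma d_nonneg (x : I) : 0 ≤ W.d x := integral_nonneg fun y => W.nonneg x y

lemma d_le_one (x : I) : W.d x ≤ 1 := by
  unfold d
  calc ∫ y, W.toFun x y ≤ ∫ _y : I, (1 : ℝ) :=
        integral_mono (W.integrable_left x) (integrable_const 1) (fun y => W.le_one x y)
    _ = 1 := by simp

lemma d_meas : Measurable W.d :=
  (W.measurable'.stronglyMeasurable.integral_prod_right).measurable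

/-- moments of the degree -/
noncomputable def mom (j : ℕ) : ℝ := ∫ x, W.d x ^ j

lemma mom_integrable (j : ℕ) : Integrable (fun x => W.d x ^ j) :=
  Integrable.of_bound (W.d_meas.pow_const j).aestronglyMeasurable 1
    (Filter.Eventually.of_forall fun x => by
      rw [Real.norm_of_nonneg (pow_nonneg (W.d_nonneg x) j)]
      exact pow_le_one₀ (W.d_nonneg x) (W.d_le_one x))

lemma mom_nonneg (j : ℕ) : 0 ≤ W.mom j := integral_nonneg fun x => pow_nonneg (W.d_nonneg x) j

lemma mom_anti (j k : ℕ) (h : j ≤ k) : W.mom k ≤ W.mom j :=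
  integral_mono (W.mom_integrable k) (W.mom_integrable j)
    (fun x => pow_le_pow_of_le_one (W.d_nonneg x) (W.d_le_one x) h)

lemma mom_le_one (j : ℕ) : W.mom j ≤ 1 := by
  have := W.mom_anti 0 j (Nat.zero_le _)
  refine this.trans ?_
  unfold mom
  simp

/-- Jensen -/
lemma jensen (p q : ℕ) (hp : 1 ≤ p) (hpq : p ≤ q) : W.mom p ^ q ≤ W.mom q ^ p := by
  have hp0 : (0 : ℝ) < p := by exact_mod_cast hp
  have hr : (1 : ℝ) ≤ (q : ℝ) / p := by
    rw [le_div_iff₀ hp0, one_mul]; exact_mod_cast hpq
  have hconv : ConvexOn ℝ (Set.Ici 0) (fun x : ℝ => x ^ ((q : ℝ) / p)) := convexOn_rpow hr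
  have hcont : ContinuousOn (fun x : ℝ => x ^ ((q : ℝ) / p)) (Set.Ici 0) :=
    (Real.continuous_rpow_const (by linarith)).continuousOn
  have hcomp : ∀ x, (W.d x ^ p) ^ ((q : ℝ) / p) = W.d x ^ q := by
    intro x
    rw [← Real.rpow_natCast (W.d x) p, ← Real.rpow_mul (W.d_nonneg x),
      mul_div_cancel₀ _ hp0.ne', Real.rpow_natCast]
  have h1 := hconv.map_integral_le hcont isClosed_Ici (μ := (volume : Measure I))
    (f := fun x => W.d x ^ p)
    (Filter.Eventually.of_forall fun x => pow_nonneg (W.d_nonneg x) p) (W.mom_integrable p)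
    (by
      have : ((fun x : ℝ => x ^ ((q : ℝ) / p)) ∘ fun x => W.d x ^ p) = fun x => W.d x ^ q := by
        funext x
        exact hcomp x
      rw [this]
      exact W.mom_integrable q)
  simp only [hcomp] at h1
  change W.mom p ^ ((q : ℝ) / p) ≤ W.mom q at h1
  have h2 := pow_le_pow_left₀ (Real.rpow_nonneg (W.mom_nonneg p) _) h1 p
  refine le_trans (le_of_eq ?_) h2
  rw [← Real.rpow_natCast (W.mom p ^ ((q : ℝ) / p)) p, ← Real.rpow_mul (W.mom_nonneg p),
    div_mul_cancel₀ _ hp0.ne', Real.rpow_natCast]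

end Graphon

end Pool.Agent.Q258.Dde
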