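import Pool.Agent.Q258.Dde.Defs

set_option autoImplicit false

open MeasureTheory unitInterval

namespace Pool.Agent.Q258.Dde

variable (W : Graphon)

lemma meas_pair {V : Type} [Fintype V] (a b : V) :
    Measurable (fun x : V → I => W.toFun (x a) (x b)) := by
  have h : Measurable (fun x : V → I => (x a, x b)) :=
    (measurable_pi_apply a).prodMk (measurable_pi_apply b)
  exact W.measurable'.comp h

lemma star_int (a : ℕ) : homDensity (starG a) W =
    ∫ x : Fin (a + 1) → I, ∏ j : Fin a, W.toFun (x 0) (x j.succ) := by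
  classical
  unfold homDensity
  congr 1
  funext x
  have hset : (starG a).edgeFinset = Finset.univ.image (fun j : Fin a => s((0 : Fin (a + 1)), j.succ)) := by
    ext e
    rw [SimpleGraph.mem_edgeFinset]
    unfold starG
    rw [SimpleGraph.edgeSet_fromEdgeSet]
    simp only [Set.mem_diff, Set.mem_range, Finset.mem_image, Finset.mem_univ, true_and]
    constructor
    · rintro ⟨h, -⟩; exact h
    · rintro ⟨j, rfl⟩
      refine ⟨⟨j, rfl⟩, ?_⟩
      simp [Fin.succ_ne_zero, Ne.symm (Fin.succ_ne_zero j)]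
  have e1 : ∀ (_inst : Fintype (starG a).edgeSet), @SimpleGraph.edgeFinset _ (starG a) _inst =
      Finset.univ.image (fun j : Fin a => s((0 : Fin (a + 1)), j.succ)) := by
    intro _inst
    rw [← hset]
    congr
    exact Subsingleton.elim _ _
  rw [e1, Finset.prod_image]
  · rfl
  · intro j _ j' _ hjj
    simp only [Sym2.eq_iff] at hjj
    rcases hjj with ⟨-, h⟩ | ⟨h, -⟩
    · exact Fin.succ_injective _ h
    · exact absurd h.symm (Fin.succ_ne_zero _)

lemma star_dens (a : ℕ) : homDensity (starG a) W = W.mom a := by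
  rw [star_int]
  rw [← (volume_preserving_piFinSuccAbove (fun _ : Fin (a + 1) => I) 0).symm.integral_comp']
  have h1 : ∀ p : I × (Fin a → I), ∏ j : Fin a,
      W.toFun ((MeasurableEquiv.piFinSuccAbove (fun _ : Fin (a + 1) => I) 0).symm p 0)
        ((MeasurableEquiv.piFinSuccAbove (fun _ : Fin (a + 1) => I) 0).symm p j.succ) =
      ∏ j : Fin a, W.toFun p.1 (p.2 j) := by
    intro p
    rfl
  simp only [h1]
  have hm : Measurable (fun p : I × (Fin a → I) => ∏ j : Fin a, W.toFun p.1 (p.2 j)) := by
    apply Finset.measurable_prod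
    intro j _
    exact W.measurable'.comp (measurable_fst.prodMk ((measurable_pi_apply j).comp measurable_snd))
  rw [show (volume : Measure (I × (Fin a → I))) = (volume : Measure I).prod volume from rfl,
    integral_prod]
  · unfold Graphon.mom
    congr 1
    funext c
    have := integral_fintype_prod_volume_eq_pow (ι := Fin a) (fun y : I => W.toFun c y)
    rw [this, Fintype.card_fin]
    rfl
  · refine Integrable.of_bound hm.aestronglyMeasurable 1 (Filter.Eventually.of_forall fun p => ?_)
    rw [Real.norm_of_nonneg (Finset.prod_nonneg fun j _ => W.nonneg _ _)]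
    exact Finset.prod_le_one (fun j _ => W.nonneg _ _) (fun j _ => W.le_one _ _)

lemma spid_int (a : ℕ) : homDensity (spid a) W =
    ∫ x : Fin (a + 1) ⊕ Fin 2 → I, (∏ j : Fin a, W.toFun (x (Sum.inl 0)) (x (Sum.inl j.succ))) *
      (W.toFun (x (Sum.inr 0)) (x (Sum.inr 1)) * W.toFun (x (Sum.inl 0)) (x (Sum.inr 0))) := by
  classical
  unfold homDensity
  congr 1
  funext x
  set A : Finset (Sym2 (Fin (a + 1) ⊕ Fin 2)) :=
    Finset.univ.image (fun j : Fin a => s(Sum.inl (0 : Fin (a + 1)), Sum.inl j.succ)) with hA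
  set B : Finset (Sym2 (Fin (a + 1) ⊕ Fin 2)) :=
    {s(Sum.inr 0, Sum.inr 1), s(Sum.inl 0, Sum.inr 0)} with hB
  have hset : (spid a).edgeFinset = A ∪ B := by
    ext e
    rw [SimpleGraph.mem_edgeFinset]
    unfold spid
    rw [SimpleGraph.edgeSet_fromEdgeSet]
    simp only [Set.mem_diff, Set.mem_union, Set.mem_range, Finset.mem_image, Finset.mem_univ,
      true_and, Finset.mem_union, hA, hB, Set.mem_insert_iff, Set.mem_singleton_iff,
      Finset.mem_insert, Finset.mem_singleton]
    constructor
    · rintro ⟨h, -⟩; exact h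
    · intro h
      refine ⟨h, ?_⟩
      rcases h with ⟨j, rfl⟩ | rfl | rfl
      · simp [Fin.succ_ne_zero, Ne.symm (Fin.succ_ne_zero j)]
      · simp
      · simp
  have e1 : ∀ (_inst : Fintype (spid a).edgeSet), @SimpleGraph.edgeFinset _ (spid a) _inst =
      A ∪ B := by
    intro _inst
    rw [← hset]
    congr
    exact Subsingleton.elim _ _
  have hdis : Disjoint A B := by
    rw [Finset.disjoint_left]
    intro e he he'
    simp only [hA, hB, Finset.mem_image, Finset.mem_univ, true_and, Finset.mem_insert,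
      Finset.mem_singleton] at he he'
    obtain ⟨j, rfl⟩ := he
    rcases he' with h | h
    · simp at h
    · simp at h
  rw [e1, Finset.prod_union hdis, hA, hB, Finset.prod_image, Finset.prod_pair]
  · rfl
  · simp
  · intro j _ j' _ hjj
    simp only [Sym2.eq_iff, Sum.inl.injEq] at hjj
    rcases hjj with ⟨-, h⟩ | ⟨h, -⟩
    · exact Fin.succ_injective _ h
    · exact absurd h.symm (Fin.succ_ne_zero _)

lemma spid_le (a : ℕ) : homDensity (spid a) W ≤ W.mom 1 * W.mom a := by
  rw [spid_int]
  have hm1 : Measurable (fun x : Fin (a + 1) ⊕ Fin 2 → I =>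
      ∏ j : Fin a, W.toFun (x (Sum.inl 0)) (x (Sum.inl j.succ))) :=
    Finset.measurable_prod _ (fun j _ => meas_pair W _ _)
  have hm2 := meas_pair W (Sum.inr (0 : Fin 2) : Fin (a + 1) ⊕ Fin 2) (Sum.inr 1)
  have hm3 := meas_pair W (Sum.inl (0 : Fin (a + 1)) : Fin (a + 1) ⊕ Fin 2) (Sum.inr 0)
  have hp0 : ∀ x : Fin (a + 1) ⊕ Fin 2 → I,
      0 ≤ ∏ j : Fin a, W.toFun (x (Sum.inl 0)) (x (Sum.inl j.succ)) := fun x =>
    Finset.prod_nonneg fun j _ => W.nonneg _ _
  have hp1 : ∀ x : Fin (a + 1) ⊕ Fin 2 → I,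
      ∏ j : Fin a, W.toFun (x (Sum.inl 0)) (x (Sum.inl j.succ)) ≤ 1 := fun x =>
    Finset.prod_le_one (fun j _ => W.nonneg _ _) (fun j _ => W.le_one _ _)
  calc _ ≤ ∫ x : Fin (a + 1) ⊕ Fin 2 → I,
        (∏ j : Fin a, W.toFun (x (Sum.inl 0)) (x (Sum.inl j.succ))) *
        W.toFun (x (Sum.inr 0)) (x (Sum.inr 1)) := by
        apply integral_mono
        · refine Integrable.of_bound (hm1.mul (hm2.mul hm3)).aestronglyMeasurable 1
            (Filter.Eventually.of_forall fun x => ?_)
          rw [Real.norm_of_nonneg (mul_nonneg (hp0 x) (mul_nonneg (W.nonneg _ _) (W.nonneg _ _)))]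
          exact mul_le_one₀ (hp1 x) (mul_nonneg (W.nonneg _ _) (W.nonneg _ _))
            (mul_le_one₀ (W.le_one _ _) (W.nonneg _ _) (W.le_one _ _))
        · refine Integrable.of_bound (hm1.mul hm2).aestronglyMeasurable 1
            (Filter.Eventually.of_forall fun x => ?_)
          rw [Real.norm_of_nonneg (mul_nonneg (hp0 x) (W.nonneg _ _))]
          exact mul_le_one₀ (hp1 x) (W.nonneg _ _) (W.le_one _ _)
        · intro x
          exact mul_le_mul_of_nonneg_left
            (mul_le_of_le_one_right (W.nonneg _ _) (W.le_one _ _)) (hp0 x)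
    _ = (∫ x : Fin (a + 1) → I, ∏ j : Fin a, W.toFun (x 0) (x j.succ)) *
        ∫ y : Fin 2 → I, W.toFun (y 0) (y 1) := by
        rw [← (volume_measurePreserving_sumPiEquivProdPi
          (fun _ : Fin (a + 1) ⊕ Fin 2 => I)).symm.integral_comp']
        rw [← integral_prod_mul]
        rfl
    _ = W.mom a * W.mom 1 := by
        rw [← star_int, star_dens]
        have h1 := star_int W 1
        rw [star_dens] at h1
        rw [h1]
        congr 1
        apply congrArg
        funext y
        simp
    _ = _ := mul_comm _ _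

end Pool.Agent.Q258.Dde
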