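import Pool.Agent.Q258.Dde.Dens

set_option autoImplicit false

open MeasureTheory unitInterval Filter Topology

namespace Pool.Agent.Q258.Dde

/-- threshold graphon -/
noncomputable def thr (δ ε : ℝ) (hε : ε ∈ Set.Icc (0 : ℝ) 1) : Graphon where
  toFun x y := if (x : ℝ) < δ ∨ (y : ℝ) < δ then 1 else ε
  measurable' := by
    refine Measurable.ite ?_ measurable_const measurable_const
    apply MeasurableSet.union
    · exact measurableSet_lt (measurable_subtype_coe.comp measurable_fst) measurable_const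
    · exact measurableSet_lt (measurable_subtype_coe.comp measurable_snd) measurable_const
  symm' x y := by simp only [or_comm]
  mem' x y := by
    split_ifs
    · exact ⟨zero_le_one, le_rfl⟩
    · exact hε

lemma meas_S (δ : ℝ) : MeasurableSet {x : I | (x : ℝ) < δ} :=
  measurableSet_lt measurable_subtype_coe measurable_const

lemma vol_S (δ : ℝ) (hδ : δ ∈ Set.Icc (0 : ℝ) 1) :
    (volume : Measure I).real {x : I | (x : ℝ) < δ} = δ := by
  have h1 : {x : I | (x : ℝ) < δ} = Set.Iio (⟨δ, hδ⟩ : I) := by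
    ext x
    simp only [Set.mem_setOf_eq, Set.mem_Iio]
    exact Iff.rfl
  unfold Measure.real
  rw [h1, unitInterval.volume_Iio, ENNReal.toReal_ofReal hδ.1]

lemma thr_d (δ ε : ℝ) (hε : ε ∈ Set.Icc (0 : ℝ) 1) (hδ : δ ∈ Set.Icc (0 : ℝ) 1) (x : I)
    (hx : ¬ (x : ℝ) < δ) : (thr δ ε hε).d x ≤ δ + ε := by
  unfold Graphon.d
  calc ∫ y, (thr δ ε hε).toFun x y ≤ ∫ y : I, ({y : I | (y : ℝ) < δ}.indicator (fun _ => (1 : ℝ)) y + ε) := by
        apply integral_mono ((thr δ ε hε).integrable_left x)
        · exact ((integrable_const (1 : ℝ)).indicator (meas_S δ)).add (integrable_const _)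
        · intro y
          change (if (x : ℝ) < δ ∨ (y : ℝ) < δ then 1 else ε) ≤
            {y : I | (y : ℝ) < δ}.indicator (fun _ => (1 : ℝ)) y + ε
          by_cases hy : (y : ℝ) < δ
          · rw [if_pos (Or.inr hy), Set.indicator_of_mem (show y ∈ {y : I | (y : ℝ) < δ} from hy)]
            linarith [hε.1]
          · rw [if_neg (by tauto), Set.indicator_of_notMem (show y ∉ {y : I | (y : ℝ) < δ} from hy)]
            linarith
    _ = δ + ε := by
        rw [integral_add ((integrable_const (1 : ℝ)).indicator (meas_S δ)) (integrable_const _),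
          integral_indicator_const _ (meas_S δ), vol_S δ hδ]
        simp

lemma thr_mom (δ ε : ℝ) (hε : ε ∈ Set.Icc (0 : ℝ) 1) (hδ : δ ∈ Set.Icc (0 : ℝ) 1) (i : ℕ) :
    (thr δ ε hε).mom i ≤ δ + (δ + ε) ^ i := by
  unfold Graphon.mom
  have h0 : 0 ≤ (δ + ε) ^ i := pow_nonneg (add_nonneg hδ.1 hε.1) i
  calc ∫ x, (thr δ ε hε).d x ^ i
      ≤ ∫ x : I, ({y : I | (y : ℝ) < δ}.indicator (fun _ => (1 : ℝ)) x + (δ + ε) ^ i) := by
        apply integral_mono ((thr δ ε hε).mom_integrable i)
        · exact ((integrable_const (1 : ℝ)).indicator (meas_S δ)).add (integrable_const _)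
        · intro x
          change (thr δ ε hε).d x ^ i ≤
            {y : I | (y : ℝ) < δ}.indicator (fun _ => (1 : ℝ)) x + (δ + ε) ^ i
          by_cases hx : (x : ℝ) < δ
          · rw [Set.indicator_of_mem (show x ∈ {y : I | (y : ℝ) < δ} from hx)]
            have := pow_le_one₀ (n := i) ((thr δ ε hε).d_nonneg x) ((thr δ ε hε).d_le_one x)
            linarith
          · rw [Set.indicator_of_notMem (show x ∉ {y : I | (y : ℝ) < δ} from hx)]
            have := pow_le_pow_left₀ ((thr δ ε hε).d_nonneg x) (thr_d δ ε hε hδ x hx) i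
            linarith
    _ = δ + (δ + ε) ^ i := by
        rw [integral_add ((integrable_const (1 : ℝ)).indicator (meas_S δ)) (integrable_const _),
          integral_indicator_const _ (meas_S δ), vol_S δ hδ]
        simp

lemma spid_nonneg (a : ℕ) (W : Graphon) : 0 ≤ homDensity (spid a) W := by
  rw [spid_int]
  exact integral_nonneg fun x => mul_nonneg (Finset.prod_nonneg fun j _ => W.nonneg _ _)
    (mul_nonneg (W.nonneg _ _) (W.nonneg _ _))

lemma spid_thr (a : ℕ) (δ ε : ℝ) (hε : ε ∈ Set.Icc (0 : ℝ) 1) (hδ : δ ∈ Set.Icc (0 : ℝ) 1) :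
    δ * ε ≤ homDensity (spid a) (thr δ ε hε) := by
  rw [spid_int]
  set W := thr δ ε hε with hW
  have hWε : ∀ x y, ε ≤ W.toFun x y := by
    intro x y
    change ε ≤ (if (x : ℝ) < δ ∨ (y : ℝ) < δ then 1 else ε)
    split_ifs
    · exact hε.2
    · exact le_rfl
  have hW1 : ∀ x y : I, (x : ℝ) < δ → W.toFun x y = 1 := by
    intro x y hx
    change (if (x : ℝ) < δ ∨ (y : ℝ) < δ then 1 else ε) = 1
    rw [if_pos (Or.inl hx)]
  set T : Set (Fin (a + 1) ⊕ Fin 2 → I) :=
    (fun x => x (Sum.inl 0)) ⁻¹' {y : I | (y : ℝ) < δ} with hT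
  have hTm : MeasurableSet T := (measurable_pi_apply _) (meas_S δ)
  have hTv : (volume : Measure (Fin (a + 1) ⊕ Fin 2 → I)).real T = δ := by
    have h1 := (measurePreserving_eval (fun _ : Fin (a + 1) ⊕ Fin 2 => (volume : Measure I))
      (Sum.inl 0)).measure_preimage (meas_S δ).nullMeasurableSet
    unfold Measure.real
    rw [show (volume : Measure (Fin (a + 1) ⊕ Fin 2 → I)) =
      Measure.pi (fun _ : Fin (a + 1) ⊕ Fin 2 => (volume : Measure I)) from rfl, hT]
    rw [show (fun x : Fin (a + 1) ⊕ Fin 2 → I => x (Sum.inl 0)) = Function.eval (Sum.inl 0) from rfl]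
    rw [h1]
    exact vol_S δ hδ
  have hm : Measurable (fun x : Fin (a + 1) ⊕ Fin 2 → I =>
      (∏ j : Fin a, W.toFun (x (Sum.inl 0)) (x (Sum.inl j.succ))) *
      (W.toFun (x (Sum.inr 0)) (x (Sum.inr 1)) * W.toFun (x (Sum.inl 0)) (x (Sum.inr 0)))) :=
    (Finset.measurable_prod _ (fun j _ => meas_pair W _ _)).mul
      ((meas_pair W _ _).mul (meas_pair W _ _))
  have hp0 : ∀ x : Fin (a + 1) ⊕ Fin 2 → I,
      0 ≤ ∏ j : Fin a, W.toFun (x (Sum.inl 0)) (x (Sum.inl j.succ)) := fun x =>
    Finset.prod_nonneg fun j _ => W.nonneg _ _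
  have hp1 : ∀ x : Fin (a + 1) ⊕ Fin 2 → I,
      ∏ j : Fin a, W.toFun (x (Sum.inl 0)) (x (Sum.inl j.succ)) ≤ 1 := fun x =>
    Finset.prod_le_one (fun j _ => W.nonneg _ _) (fun j _ => W.le_one _ _)
  calc δ * ε = ∫ x : Fin (a + 1) ⊕ Fin 2 → I, T.indicator (fun _ => ε) x := by
        rw [integral_indicator_const _ hTm, hTv]
        simp
    _ ≤ _ := by
        apply integral_mono
        · exact (integrable_const ε).indicator hTm
        · refine Integrable.of_bound hm.aestronglyMeasurable 1
            (Filter.Eventually.of_forall fun x => ?_)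
          rw [Real.norm_of_nonneg (mul_nonneg (hp0 x) (mul_nonneg (W.nonneg _ _) (W.nonneg _ _)))]
          exact mul_le_one₀ (hp1 x) (mul_nonneg (W.nonneg _ _) (W.nonneg _ _))
            (mul_le_one₀ (W.le_one _ _) (W.nonneg _ _) (W.le_one _ _))
        · intro x
          by_cases hx : x ∈ T
          · rw [Set.indicator_of_mem hx]
            have hx' : (x (Sum.inl 0) : ℝ) < δ := hx
            change ε ≤ (∏ j : Fin a, W.toFun (x (Sum.inl 0)) (x (Sum.inl j.succ))) *
              (W.toFun (x (Sum.inr 0)) (x (Sum.inr 1)) * W.toFun (x (Sum.inl 0)) (x (Sum.inr 0)))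
            rw [Finset.prod_eq_one (fun j _ => hW1 _ _ hx'), hW1 _ (x (Sum.inr 0)) hx', one_mul,
              mul_one]
            exact hWε _ _
          · rw [Set.indicator_of_notMem hx]
            exact mul_nonneg (hp0 x) (mul_nonneg (W.nonneg _ _) (W.nonneg _ _))

/-- the basic inequalities between the logarithms -/
lemma facts (W : Graphon) (i : ℕ) (h : homDensity (spid (i + 1)) W ≠ 0) :
    0 < W.mom 1 ∧ 0 < W.mom (i + 1) ∧ 0 < W.mom i ∧ 0 < homDensity (spid (i + 1)) W ∧
    (- Real.log (W.mom 1)) + (- Real.log (W.mom (i + 1))) ≤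
      - Real.log (homDensity (spid (i + 1)) W) ∧
    - Real.log (W.mom i) ≤ - Real.log (W.mom (i + 1)) := by
  have h0 : 0 < homDensity (spid (i + 1)) W := lt_of_le_of_ne (spid_nonneg _ W) (Ne.symm h)
  have h1 := spid_le W (i + 1)
  have h2 : 0 < W.mom 1 * W.mom (i + 1) := lt_of_lt_of_le h0 h1
  have h3 : 0 < W.mom 1 := by
    rcases (W.mom_nonneg 1).eq_or_lt with h | h
    · rw [← h] at h2; simp at h2
    · exact h
  have h4 : 0 < W.mom (i + 1) := by
    rcases (W.mom_nonneg (i + 1)).eq_or_lt with h | h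
    · rw [← h] at h2; simp at h2
    · exact h
  have h5 : 0 < W.mom i := lt_of_lt_of_le h4 (W.mom_anti i (i + 1) (Nat.le_succ i))
  refine ⟨h3, h4, h5, h0, ?_, ?_⟩
  · have := Real.log_le_log h0 h1
    rw [Real.log_mul h3.ne' h4.ne'] at this
    linarith
  · have := Real.log_le_log h4 (W.mom_anti i (i + 1) (Nat.le_succ i))
    linarith

lemma jensen_log (W : Graphon) (p q : ℕ) (hp : 1 ≤ p) (hpq : p ≤ q) (h1 : 0 < W.mom p)
    (h2 : 0 < W.mom q) : (p : ℝ) * (- Real.log (W.mom q)) ≤ q * (- Real.log (W.mom p)) := by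
  have h := Real.log_le_log (pow_pos h1 q) (W.jensen p q hp hpq)
  rw [Real.log_pow, Real.log_pow] at h
  linarith

/-- upper bound for the ratio -/
lemma ratio_le (W : Graphon) (i : ℕ) (hi : 1 ≤ i) (h : homDensity (spid (i + 1)) W ≠ 0) :
    ((i : ℝ) + 1) * (- Real.log (W.mom i)) ≤ i * (- Real.log (homDensity (spid (i + 1)) W)) := by
  obtain ⟨h1, h2, h3, h4, h5, h6⟩ := facts W i h
  have h7 := jensen_log W 1 i le_rfl hi h1 h3
  push_cast at h7
  have hi0 : (0 : ℝ) ≤ i := Nat.cast_nonneg i
  nlinarith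

lemma mom_le_one_log (W : Graphon) (j : ℕ) (h : 0 < W.mom j) : 0 ≤ - Real.log (W.mom j) := by
  have := Real.log_nonpos h.le (W.mom_le_one j)
  linarith

/-- the domination exponent of (spid (i+1), star i) -/
theorem exponent (i : ℕ) (hi : 1 ≤ i) :
    IsDominationExponent (spid (i + 1)) (starG i) ((i : ℝ) / (i + 1)) := by
  have hi0 : (0 : ℝ) < i := by exact_mod_cast hi
  refine ⟨fun W h => ?_, ?_, ?_⟩
  · rw [star_dens]
    exact (facts W i h).2.2.1.ne'
  · rintro r ⟨W, h0, h1, rfl⟩
    rw [star_dens]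
    have h2 := ratio_le W i hi h0
    obtain ⟨g1, g2, g3, g4, g5, g6⟩ := facts W i h0
    have h3 : homDensity (spid (i + 1)) W < 1 := by
      refine lt_of_le_of_ne ((spid_le W (i + 1)).trans ?_) h1
      exact mul_le_one₀ (W.mom_le_one 1) (W.mom_nonneg _) (W.mom_le_one _)
    have h4 : Real.log (homDensity (spid (i + 1)) W) < 0 := Real.log_neg g4 h3
    rw [div_le_iff_of_neg h4, div_mul_eq_mul_div, div_le_iff₀ (by linarith)]
    linarith
  · intro b hb
    by_contra hcon
    push Not at hcon
    -- choose L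
    set C : ℝ := Real.log (1 + 2 ^ i) with hC
    have hC0 : 0 < C := Real.log_pos (by
      have : (0 : ℝ) < 2 ^ i := by positivity
      linarith)
    set g : ℝ := i - b * (i + 1) with hg
    have hg0 : 0 < g := by
      have := (lt_div_iff₀ (by linarith : (0 : ℝ) < i + 1)).mp hcon
      rw [hg]; linarith
    set L : ℝ := C / g + C + 1 with hL
    have hL0 : 0 < L := by positivity
    have hLg : C < g * L := by
      have h1 : g * (C / g) = C := by field_simp
      have h2 : 0 < g * (C + 1) := by positivity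
      rw [hL]
      nlinarith
    set ε : ℝ := Real.exp (-L) with hε
    have hε0 : 0 < ε := Real.exp_pos _
    have hlε : Real.log ε = -L := by rw [hε, Real.log_exp]
    have hε1 : ε ≤ 1 := Real.exp_le_one_iff.mpr (by linarith)
    have hεI : ε ∈ Set.Icc (0 : ℝ) 1 := ⟨hε0.le, hε1⟩
    have hδI : ε ^ i ∈ Set.Icc (0 : ℝ) 1 := ⟨by positivity, pow_le_one₀ hε0.le hε1⟩
    set W := thr (ε ^ i) ε hεI with hW
    have hT := spid_thr (i + 1) (ε ^ i) ε hεI hδI
    rw [← pow_succ] at hT
    have hT0 : 0 < homDensity (spid (i + 1)) W := lt_of_lt_of_le (by positivity) hT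
    obtain ⟨g1, g2, g3, g4, g5, g6⟩ := facts W i hT0.ne'
    have hmi : W.mom i ≤ (1 + 2 ^ i) * ε ^ i := by
      refine (thr_mom (ε ^ i) ε hεI hδI i).trans ?_
      have h1 : ε ^ i + ε ≤ 2 * ε := by
        have : ε ^ i ≤ ε ^ 1 := pow_le_pow_of_le_one hε0.le hε1 hi
        rw [pow_one] at this
        linarith
      have h2 := pow_le_pow_left₀ (by positivity) h1 i
      rw [mul_pow] at h2
      linarith
    have hlogi : (i : ℝ) * L - C ≤ - Real.log (W.mom i) := by
      have h1 := Real.log_le_log g3 hmi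
      rw [Real.log_mul (by positivity) (by positivity), Real.log_pow, hlε] at h1
      linarith
    have hlogT : - Real.log (homDensity (spid (i + 1)) W) ≤ (i + 1) * L := by
      have h1 := Real.log_le_log (by positivity) hT
      rw [Real.log_pow, hlε] at h1
      push_cast at h1
      linarith
    have hiL : C < i * L := by
      have h1 : (0 : ℝ) ≤ C / g := by positivity
      have h2 : C < L := by rw [hL]; linarith
      have h3 : (1 : ℝ) ≤ i := by exact_mod_cast hi
      nlinarith
    have hvpos : 0 < - Real.log (W.mom i) := by linarith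
    have hTpos : 0 < - Real.log (homDensity (spid (i + 1)) W) := by
      have h1 := mom_le_one_log W 1 g1
      linarith
    have hne1 : homDensity (spid (i + 1)) W ≠ 1 := by
      intro h
      rw [h] at hTpos
      simp at hTpos
    have hmem := hb ⟨W, hT0.ne', hne1, rfl⟩
    rw [star_dens] at hmem
    have hneg : Real.log (homDensity (spid (i + 1)) W) < 0 := by linarith
    rw [div_le_iff_of_neg hneg] at hmem
    -- b * log T ≤ log m_i, b > 0
    have hb0 : 0 < b := by
      by_contra hb0
      push Not at hb0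
      nlinarith
    nlinarith

end Pool.Agent.Q258.Dde
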