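import Pool.Agent.Q258.Dde.Exp

set_option autoImplicit false

open MeasureTheory unitInterval Filter Topology

namespace Pool.Agent.Q258.Dde

/-- the ratio of a graphon for the pair (spid (i+1), star i) -/
noncomputable def rat (i : ℕ) (W : Graphon) : ℝ :=
  Real.log (homDensity (starG i) W) / Real.log (homDensity (spid (i + 1)) W)

lemma rat_large (i : ℕ) (W : Graphon) (η : ℝ) (hη : 0 < η) (hi : 1 ≤ i)
    (h : 1 / (1 + 1 / (i : ℝ) + η) < rat i W) :
    homDensity (spid (i + 1)) W ≠ 0 ∧ 0 < - Real.log (W.mom i) ∧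
    - Real.log (homDensity (spid (i + 1)) W) ≤ (1 + 1 / (i : ℝ) + η) * (- Real.log (W.mom i)) := by
  have hi0 : (0 : ℝ) < i := by exact_mod_cast hi
  have hq : 0 < 1 + 1 / (i : ℝ) + η := by positivity
  have hr0 : 0 < rat i W := lt_trans (by positivity) h
  have h0 : homDensity (spid (i + 1)) W ≠ 0 := by
    intro h0
    unfold rat at hr0
    rw [h0] at hr0
    simp at hr0
  obtain ⟨g1, g2, g3, g4, g5, g6⟩ := facts W i h0
  have hu := mom_le_one_log W 1 g1
  have hv := mom_le_one_log W i g3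
  have hw := mom_le_one_log W (i + 1) g2
  have hT0 : 0 ≤ - Real.log (homDensity (spid (i + 1)) W) := by linarith
  have hTne : Real.log (homDensity (spid (i + 1)) W) ≠ 0 := by
    intro h1
    unfold rat at hr0
    rw [h1] at hr0
    simp at hr0
  have hT : Real.log (homDensity (spid (i + 1)) W) < 0 :=
    lt_of_le_of_ne (by linarith) hTne
  unfold rat at h
  rw [star_dens, lt_div_iff_of_neg hT, div_mul_eq_mul_div, one_mul, lt_div_iff₀ hq] at h
  refine ⟨h0, ?_, by linarith⟩
  by_contra hcon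
  push Not at hcon
  have h2 : Real.log (W.mom i) = 0 := by linarith
  rw [h2, zero_mul] at h
  linarith

/-- no sequence realises two of the exponents -/
theorem not_two (s : ℕ → Graphon) (i k : ℕ) (hi : 1 ≤ i) (hik : i < k)
    (h1 : Tendsto (fun n => rat i (s n)) atTop (𝓝 ((i : ℝ) / (i + 1))))
    (h2 : Tendsto (fun n => rat k (s n)) atTop (𝓝 ((k : ℝ) / (k + 1)))) : False := by
  have hi0 : (0 : ℝ) < i := by exact_mod_cast hi
  have hk : 1 ≤ k := by omega
  have hk0 : (0 : ℝ) < k := by exact_mod_cast hk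
  have hi1 : (1 : ℝ) ≤ i := by exact_mod_cast hi
  have hk1 : (1 : ℝ) ≤ k := by exact_mod_cast hk
  set η : ℝ := 1 / (4 * i * k) with hη
  have hη0 : 0 < η := by positivity
  have l1 : 1 / (1 + 1 / (i : ℝ) + η) < (i : ℝ) / (i + 1) := by
    rw [div_lt_div_iff₀ (by positivity) (by positivity)]
    have : (i : ℝ) * (1 + 1 / (i : ℝ) + η) = i + 1 + i * η := by field_simp
    rw [this]
    have : 0 < (i : ℝ) * η := by positivity
    linarith
  have l2 : 1 / (1 + 1 / (k : ℝ) + η) < (k : ℝ) / (k + 1) := by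
    rw [div_lt_div_iff₀ (by positivity) (by positivity)]
    have : (k : ℝ) * (1 + 1 / (k : ℝ) + η) = k + 1 + k * η := by field_simp
    rw [this]
    have : 0 < (k : ℝ) * η := by positivity
    linarith
  have e1 := h1.eventually (lt_mem_nhds l1)
  have e2 := h2.eventually (lt_mem_nhds l2)
  obtain ⟨n, hn1, hn2⟩ := (e1.and e2).exists
  set W := s n with hW
  obtain ⟨a0, a1, a2⟩ := rat_large i W η hη0 hi hn1
  obtain ⟨b0, b1, b2⟩ := rat_large k W η hη0 hk hn2
  obtain ⟨g1, g2, g3, g4, g5, g6⟩ := facts W i a0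
  obtain ⟨f1, f2, f3, f4, f5, f6⟩ := facts W k b0
  have j1 := jensen_log W 1 i le_rfl hi g1 g3
  have j2 := jensen_log W (i + 1) k (by omega) (by omega) g2 f3
  push_cast at j1 j2
  set u := - Real.log (W.mom 1) with hu
  set v := - Real.log (W.mom i) with hv
  set w := - Real.log (W.mom (i + 1)) with hw
  set z := - Real.log (W.mom k) with hz
  set w' := - Real.log (W.mom (k + 1)) with hw'
  -- w ≤ (1+η) v
  have c1 : v / i ≤ u := by rw [div_le_iff₀ hi0]; linarith
  have c2 : w ≤ (1 + η) * v := by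
    have : (1 + 1 / (i : ℝ) + η) * v = (1 + η) * v + v / i := by ring
    linarith
  have c3 : u ≤ (1 / k + η) * z := by
    have : (1 + 1 / (k : ℝ) + η) * z = (1 / k + η) * z + z := by ring
    linarith
  -- combine
  have c4 : k * w ≤ k * (1 + η) * (i * u) := by
    have h3 : (1 + η) * v ≤ (1 + η) * (i * u) := mul_le_mul_of_nonneg_left (by linarith) (by positivity)
    have h4 : k * w ≤ k * ((1 + η) * (i * u)) := mul_le_mul_of_nonneg_left (c2.trans h3) hk0.le
    linarith
  have c5 : k * (1 + η) * (i * u) ≤ k * (1 + η) * (i * ((1 / k + η) * z)) :=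
    mul_le_mul_of_nonneg_left (mul_le_mul_of_nonneg_left c3 hi0.le) (by positivity)
  have c6 : k * (1 + η) * (i * ((1 / k + η) * z)) = (i * (1 + η) * (1 + k * η)) * z := by
    field_simp
  have c7 : ((i : ℝ) + 1) * z ≤ (i * (1 + η) * (1 + k * η)) * z := by linarith
  have c8 : (i : ℝ) + 1 ≤ i * (1 + η) * (1 + k * η) := le_of_mul_le_mul_right c7 b1
  have hikη : (i : ℝ) * k * η = 1 / 4 := by rw [hη]; field_simp
  have hη1 : η ≤ 1 := by
    rw [hη, div_le_one (by positivity)]
    nlinarith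
  have hiη : (i : ℝ) * η ≤ 1 / 4 := by
    rw [← hikη]
    have : (i : ℝ) * η ≤ (i * η) * k := le_mul_of_one_le_right (by positivity) hk1
    linarith
  have c9 : i * (1 + η) * (1 + k * η) = i + i * η + i * k * η + (i * k * η) * η := by ring
  rw [c9, hikη] at c8
  linarith

end Pool.Agent.Q258.Dde
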